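import Pool.Agent.E8helper72.HR.Main

/-!
# Scaling sets for horizontal rigidity in two variables

Every continuous function `f : ℝ² → ℝ` which is horizontally rigid for a set `C ⊆ (0, ∞)` containing
two elements different from `1` is affine. This answers all three parts of the question.

Sketch of the proof. Let `K` be the closed convex cone of the directions in which the epigraph of `f`
recedes and `P` its dual cone. If the graph of `x ↦ f (c x)` is isometric to the graph of `f`, the
cone obtained from `P` by stretching the horizontal plane by `c` is congruent to `P`, hence has the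
same volume in the unit ball. If the vertical direction is not in `P`, this volume is an integral
of the angular measure of a plane closed convex set `{x : (x, 1) ∈ P}` not containing `0` against a
kernel in the radius. The angular measure is a unimodal function of the radius, and then the
integral takes no value three times unless `P` is null. So (with the scales `1`, `c₁`, `c₂`) either
`P` is null and `f` is a cylinder, which is settled by the planar geometry of the two-dimensional
cone `P` and by similarity relations, or the vertical direction belongs to `P`, `P` is invariant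
under the stretchings, and splits off the vertical direction orthogonally; then either an affine
symmetry of the graph stretches the plane and fixes the vertical direction, or `P` is an orthogonal
octant and the affine symmetries are monomial, and in both cases `f` is constant.
-/

set_option autoImplicit false

open Set

namespace Pool.Agent.Results.MP_7fe07c_an.TwoScalesH72

/-- the Euclidean space `ℝ³` -/
abbrev E3 : Type := EuclideanSpace ℝ (Fin 3)

/-- the graph of `f : ℝ² → ℝ` in `ℝ³` -/
def graph (f : ℝ × ℝ → ℝ) : Set E3 := {p | p 2 = f (p 0, p 1)}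

/-- `f` is horizontally rigid for `C`: for every `c ∈ C` some isometry of `ℝ³` maps the graph of `f`
onto the graph of `(x, y) ↦ f (c x, c y)`. -/
def HorizontallyRigid (C : Set ℝ) (f : ℝ × ℝ → ℝ) : Prop :=
  ∀ c ∈ C, ∃ φ : E3 ≃ᵢ E3, φ '' graph f = graph fun q => f (c * q.1, c * q.2)

/-- `f (x, y) = a + b x + d y` -/
def IsAffine (f : ℝ × ℝ → ℝ) : Prop := ∃ a b d : ℝ, ∀ x y, f (x, y) = a + b * x + d * y

/-- every continuous function horizontally rigid for `C` is affine -/
def Forces (C : Set ℝ) : Prop :=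
  ∀ f : ℝ × ℝ → ℝ, Continuous f → HorizontallyRigid C f → IsAffine f

/-- **Q1 (c).** -/
theorem forces_of_two {C : Set ℝ} (hC : C ⊆ Ioi 0)
    (h : ∃ c₁ ∈ C, ∃ c₂ ∈ C, c₁ ≠ 1 ∧ c₂ ≠ 1 ∧ c₁ ≠ c₂) : Forces C := by
  obtain ⟨c₁, h₁, c₂, h₂, n₁, n₂, n₁₂⟩ := h
  intro f hf hr
  refine H72HR.main_plane hf (hC h₁) (hC h₂) n₁ n₂ n₁₂ fun c hc => ?_
  have hcC : c ∈ C := by rcases hc with rfl | rfl <;> assumption
  exact hr c hcC

theorem two_or {C : Set ℝ} (h : ¬ ∃ c₁ ∈ C, ∃ c₂ ∈ C, c₁ ≠ 1 ∧ c₂ ≠ 1 ∧ c₁ ≠ c₂) :
    ∃ c : ℝ, C ⊆ {1, c} := by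
  by_cases h1 : ∃ c ∈ C, c ≠ 1
  · obtain ⟨c, hc, hc1⟩ := h1
    refine ⟨c, fun x hx => ?_⟩
    by_contra hcon
    rw [mem_insert_iff, mem_singleton_iff] at hcon
    push Not at hcon
    exact h ⟨x, hx, c, hc, hcon.1, hc1, hcon.2⟩
  · push Not at h1
    refine ⟨1, fun x hx => ?_⟩
    left
    exact h1 x hx

/-- the subgroup of `(0, ∞)` generated by `C` -/
noncomputable def gen (C : Set ℝ) : Subgroup {x : ℝ // 0 < x} := Subgroup.closure {u | (u : ℝ) ∈ C}

theorem two_of_dense {C : Set ℝ} (hC : C ⊆ Ioi 0)
    (hd : Dense (gen C : Set {x : ℝ // 0 < x})) :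
    ∃ c₁ ∈ C, ∃ c₂ ∈ C, c₁ ≠ 1 ∧ c₂ ≠ 1 ∧ c₁ ≠ c₂ := by
  by_contra hcon
  obtain ⟨c, hc⟩ := two_or hcon
  -- a number `d > 1` such that every element of the subgroup is a power of `d`
  obtain ⟨d, hd1, hpow⟩ : ∃ d : {x : ℝ // 0 < x}, (1 : ℝ) < d ∧ gen C ≤ Subgroup.zpowers d := by
    by_cases hcC : c ∈ C ∧ c ≠ 1
    · have hc0 : 0 < c := hC hcC.1
      rcases lt_or_gt_of_ne hcC.2 with hlt | hgt
      · refine ⟨⟨c, hc0⟩⁻¹, ?_, ?_⟩
        · show (1 : ℝ) < c⁻¹
          exact one_lt_inv_iff₀.2 ⟨hc0, hlt⟩
        · rw [gen, Subgroup.closure_le]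
          intro u hu
          have hu' : (u : ℝ) ∈ C := hu
          rcases hc hu' with h1 | h1
          · have : u = 1 := Subtype.ext h1
            rw [this]
            exact one_mem _
          · have : u = ⟨c, hc0⟩ := Subtype.ext h1
            rw [this]
            exact Subgroup.mem_zpowers_iff.2 ⟨-1, by simp⟩
      · refine ⟨⟨c, hc0⟩, hgt, ?_⟩
        rw [gen, Subgroup.closure_le]
        intro u hu
        have hu' : (u : ℝ) ∈ C := hu
        rcases hc hu' with h1 | h1
        · have : u = 1 := Subtype.ext h1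
          rw [this]
          exact one_mem _
        · have : u = ⟨c, hc0⟩ := Subtype.ext h1
          rw [this]
          exact Subgroup.mem_zpowers _
    · refine ⟨⟨2, by norm_num⟩, by norm_num, ?_⟩
      rw [gen, Subgroup.closure_le]
      intro u hu
      have hu' : (u : ℝ) ∈ C := hu
      have h1 : (u : ℝ) = 1 := by
        rcases hc hu' with h1 | h1
        · exact h1
        · by_contra h2
          apply hcC
          have h1' : (u : ℝ) = c := h1
          exact ⟨h1' ▸ hu', h1' ▸ h2⟩
      have : u = 1 := Subtype.ext h1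
      rw [this]
      exact one_mem _
  -- no power of `d` lies strictly between `1` and `d`
  have hopen : IsOpen {u : {x : ℝ // 0 < x} | 1 < (u : ℝ) ∧ (u : ℝ) < d} :=
    (isOpen_lt continuous_const continuous_subtype_val).inter
      (isOpen_lt continuous_subtype_val continuous_const)
  have hne : {u : {x : ℝ // 0 < x} | 1 < (u : ℝ) ∧ (u : ℝ) < d}.Nonempty :=
    ⟨⟨(1 + (d : ℝ)) / 2, by linarith⟩, by
      constructor
      · show 1 < (1 + (d : ℝ)) / 2
        linarith
      · show (1 + (d : ℝ)) / 2 < d
        linarith⟩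
  obtain ⟨u, ⟨hu1, hu2⟩, hu3⟩ := hd.inter_open_nonempty _ hopen hne
  obtain ⟨n, hn⟩ := Subgroup.mem_zpowers_iff.1 (hpow hu3)
  have hn' : ((d : ℝ)) ^ n = u := by
    rw [← hn]
    exact (Positive.coe_zpow d n).symm
  rw [← hn'] at hu1 hu2
  rcases lt_or_ge 0 n with h3 | h3
  · have h4 : (d : ℝ) ^ (1 : ℤ) ≤ (d : ℝ) ^ n := zpow_le_zpow_right₀ hd1.le h3
    rw [zpow_one] at h4
    linarith
  · have h4 : (d : ℝ) ^ n ≤ (d : ℝ) ^ (0 : ℤ) := zpow_le_zpow_right₀ hd1.le h3
    rw [zpow_zero] at h4
    linarith

/-- **Main theorem.** Let `C ⊆ (0, ∞)`. Each of the three conditions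
(a) `C` is uncountable;
(b) `C` generates a dense subgroup of the multiplicative group `(0, ∞)`;
(c) `C` has at least two elements different from `1`
implies that every continuous function `f : ℝ² → ℝ` which is horizontally rigid for `C` is
affine. -/
theorem result (C : Set ℝ) (hC : C ⊆ Ioi 0) :
    (¬ C.Countable → Forces C) ∧
    (Dense (gen C : Set {x : ℝ // 0 < x}) → Forces C) ∧
    ((∃ c₁ ∈ C, ∃ c₂ ∈ C, c₁ ≠ 1 ∧ c₂ ≠ 1 ∧ c₁ ≠ c₂) → Forces C) := by
  refine ⟨fun h => ?_, fun h => forces_of_two hC (two_of_dense hC h), forces_of_two hC⟩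
  apply forces_of_two hC
  by_contra hcon
  obtain ⟨c, hc⟩ := two_or hcon
  exact h ((Set.toFinite {1, c}).countable.mono hc)

end Pool.Agent.Results.MP_7fe07c_an.TwoScalesH72
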